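import Pool.Agent.H83.FD.TargetsB
import Pool.Agent.H61.G.Basic

/-!
MP_ee74d2_an, Frostman data, row CST: from a box of the child to a box of the parent.
-/

set_option autoImplicit false

namespace Pool.Agent.H33.FD.CST

open MeasureTheory Set Pool.Agent.H83.G Pool.Agent.H61.G Pool.Agent.H83.FD
open scoped ENNReal NNReal RealInnerProductSpace

variable {m : ℕ}

theorem cont_St (η : E m) (s r R : ℝ) : Continuous (St η s r R : Z m → Z m) := by
  unfold St Lo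
  fun_prop

theorem arith {R R₁ t : ℝ} (hR : 1 ≤ R) :
    sR R ^ (m + 2) * (t ^ m * R₁) = (t / Real.sqrt R) ^ m * (R₁ / R) := by
  have h0 : 0 < Real.sqrt R := Real.sqrt_pos.2 (by linarith)
  have h1 : Real.sqrt R ^ 2 = R := Real.sq_sqrt (by linarith)
  unfold sR
  rw [div_pow, inv_pow, pow_add, h1]
  field_simp

theorem pf_CST (hCNK : T_CNK) (hINX : T_INX) (hCPS : T_CPS) (hSCH : T_SCH) (hWT1 : T_WT1) :
    T_CST := by
  intro m N β D hβ hD
  obtain ⟨C1, h1⟩ := hCNK m (N + m + 3) β hβ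
  obtain ⟨C2, h2⟩ := hINX m N D hD
  refine ⟨C1 * C2, ?_⟩
  intro R R₁ s s' r G k η η' z₀ hR₁ hRR hG hsupp hs hs1 hr hs' hη hc
  have hR : 1 ≤ R := hR₁.trans hRR
  set c : E m := ctr (sR R) k with hcdef
  have hFc : Continuous (TP β c (sR R) G : Z m → ℂ) :=
    (hSCH m _ (hCPS m β c (sR R) G hβ.1 (sR_pos hR) hG fun ζ hζ => by
      have := (hsupp ζ hζ).1
      linarith)).1
  set F : Z m → ℂ := TP β c (sR R) G with hF
  set M : ℕ := N + m + 3 with hM
  have hw : Continuous (wt M : Z m → ℝ) := (hWT1 m M).2.1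
  set a : ℝ≥0∞ := C1 * ENNReal.ofReal (sR R ^ (m + 2)) with ha
  have hatop : a ≠ ∞ := ENNReal.mul_ne_top ENNReal.coe_ne_top ENNReal.ofReal_ne_top
  set t : ℝ := min (R₁ * s) (Real.sqrt R) with ht
  have hs0 : 0 < s := lt_of_lt_of_le (sR_pos hR₁) hs
  have ht0 : 0 ≤ t := le_min (by positivity) (Real.sqrt_nonneg R)
  let f : Z m → Z m → ℝ≥0∞ := fun z z' => ‖F z'‖ₑ ^ 2 *
    (ENNReal.ofReal (wt M (Lo c (sR R) (z - z'))) * ENNReal.ofReal (wt M (St η s r R₁ (z - z₀))))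
  have e1 : ∫⁻ z, ‖F z‖ₑ ^ 2 * ENNReal.ofReal (wt M (St η s r R₁ (z - z₀))) ≤
      ∫⁻ z, a * ∫⁻ z', f z z' := by
    refine lintegral_mono fun z => ?_
    have h3 : ‖F z‖ₑ ^ 2 ≤ a * ∫⁻ z', ‖F z'‖ₑ ^ 2 *
        ENNReal.ofReal (wt M (Lo c (sR R) (z - z'))) := h1 R G c hR hG hsupp z
    have h4 : (a * ∫⁻ z', ‖F z'‖ₑ ^ 2 * ENNReal.ofReal (wt M (Lo c (sR R) (z - z')))) *
        ENNReal.ofReal (wt M (St η s r R₁ (z - z₀))) = a * ∫⁻ z', f z z' := by
      rw [mul_assoc, ← lintegral_mul_const' _ _ ENNReal.ofReal_ne_top]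
      congr 1
      refine lintegral_congr fun z' => ?_
      simp only [f]
      rw [mul_assoc]
    change ‖F z‖ₑ ^ 2 * ENNReal.ofReal (wt M (St η s r R₁ (z - z₀))) ≤ a * ∫⁻ z', f z z'
    rw [← h4]
    exact mul_le_mul_left h3 _
  have hmeas : Measurable (Function.uncurry f) := by
    have c1 : Continuous fun p : Z m × Z m => F p.2 := hFc.comp continuous_snd
    have c2 : Continuous fun p : Z m × Z m => wt M (Lo c (sR R) (p.1 - p.2)) :=
      hw.comp ((cont_Lo c (sR R)).comp (continuous_fst.sub continuous_snd))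
    have c3 : Continuous fun p : Z m × Z m => wt M (St η s r R₁ (p.1 - z₀)) :=
      hw.comp ((cont_St η s r R₁).comp (continuous_fst.sub continuous_const))
    have m1 : Measurable fun p : Z m × Z m => ‖F p.2‖ₑ ^ 2 :=
      (c1.measurable.enorm).pow_const 2
    have m2 : Measurable fun p : Z m × Z m => ENNReal.ofReal (wt M (Lo c (sR R) (p.1 - p.2))) :=
      ENNReal.measurable_ofReal.comp c2.measurable
    have m3 : Measurable fun p : Z m × Z m => ENNReal.ofReal (wt M (St η s r R₁ (p.1 - z₀))) :=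
      ENNReal.measurable_ofReal.comp c3.measurable
    exact m1.mul (m2.mul m3)
  have e2 : ∫⁻ z, a * ∫⁻ z', f z z' = a * ∫⁻ z', ∫⁻ z, f z z' := by
    rw [lintegral_const_mul' _ _ hatop]
    congr 1
    exact lintegral_lintegral_swap hmeas.aemeasurable
  have e3 : ∀ z', ∫⁻ z, f z z' ≤ C2 * ENNReal.ofReal (t ^ m * R₁) *
      (‖F z'‖ₑ ^ 2 * ENNReal.ofReal (wt N (St η' s' r R (z' - z₀)))) := by
    intro z'
    have h3 : ∫⁻ z, f z z' = ‖F z'‖ₑ ^ 2 * ∫⁻ z, ENNReal.ofReal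
        (wt M (St η s r R₁ (z - z₀)) * wt M (Lo c (sR R) (z - z'))) := by
      rw [← lintegral_const_mul' _ _ (ENNReal.pow_ne_top enorm_ne_top)]
      refine lintegral_congr fun z => ?_
      simp only [f]
      rw [ENNReal.ofReal_mul (wt_pos _ _).le, mul_comm (ENNReal.ofReal (wt M (St η s r R₁ _)))]
    rw [h3]
    have h4 := h2 R R₁ s s' r η η' c z₀ z' hR₁ hRR hs hs1 hr hs' hη hc
    refine (mul_le_mul_right h4 _).trans (le_of_eq ?_)
    ring
  have e4 : ∫⁻ z', ∫⁻ z, f z z' ≤ C2 * ENNReal.ofReal (t ^ m * R₁) *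
      ∫⁻ z', ‖F z'‖ₑ ^ 2 * ENNReal.ofReal (wt N (St η' s' r R (z' - z₀))) := by
    rw [← lintegral_const_mul' _ _
      (ENNReal.mul_ne_top ENNReal.coe_ne_top ENNReal.ofReal_ne_top)]
    exact lintegral_mono e3
  refine e1.trans ?_
  rw [e2]
  refine (mul_le_mul_right e4 a).trans (le_of_eq ?_)
  rw [← mul_assoc]
  congr 1
  rw [← arith (m := m) (R₁ := R₁) (t := t) hR, ENNReal.ofReal_mul (pow_nonneg (sR_pos hR).le _)]
  push_cast
  rw [ha]
  ring

end Pool.Agent.H33.FD.CST
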