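import Pool.Agent.H83.FD.TargetsB
import Pool.Agent.H61.G.Basic

/-!
MP_ee74d2_an, Frostman data, row SCX: stability of the class under localized sums of wave packets.
-/

set_option autoImplicit false

namespace Pool.Agent.H33.FD.SCX

open MeasureTheory Set Pool.Agent.H83.G Pool.Agent.H61.G Pool.Agent.H83.FD
open scoped ENNReal NNReal RealInnerProductSpace

variable {m : ℕ}

/-- the class is monotone in the amplitude -/
theorem enx_mono {L : ℕ} {α R A A' : ℝ} {G : Z m → ℂ} (hR : 0 < R) (hA : 0 ≤ A) (hAA : A ≤ A')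
    (h : EnX L α R A G) : EnX L α R A' G := by
  intro I φ η s r z₀ h1 h2 h3 h4 h5 h6 h7
  refine (h I φ η s r z₀ h1 h2 h3 h4 h5 h6 h7).trans (ENNReal.ofReal_le_ofReal ?_)
  have hr : 0 ≤ r := le_trans (by positivity) h6
  have hs : 0 ≤ R * s := hr.trans h7
  have e1 : 0 ≤ min (R ^ (α - m)) (r ^ (α - m)) :=
    le_min (Real.rpow_nonneg hR.le _) (Real.rpow_nonneg hr _)
  have e2 : 0 ≤ R * (R * s) ^ m * min (R ^ (α - m)) (r ^ (α - m)) :=
    mul_nonneg (mul_nonneg hR.le (pow_nonneg hs m)) e1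
  exact mul_le_mul_of_nonneg_right (pow_le_pow_left₀ hA hAA 2) e2

/-- a function with compact support is determined by its Fourier transform -/
theorem tf_inj (hIVZ : T_IVZ) {G G' : Z m → ℂ} (hG : TC G) (hG' : TC G')
    (h : ∀ z, TF G z = TF G' z) : G = G' := by
  funext ζ
  rw [← (hIVZ m G hG).2 ζ, ← (hIVZ m G' hG').2 ζ]
  simp only [h]

theorem rg_mono {κ κ' c : ℝ} (hκ : κ ≤ κ') (hκ1 : κ ≤ 1) (hc : 0 ≤ c) {ζ : Z m}
    (h : ζ ∈ Rg m κ c) : ζ ∈ Rg m κ' c := by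
  obtain ⟨h1, h2, h3, h4⟩ := h
  have h0 : 0 ≤ ζ.1 := by linarith
  refine ⟨by linarith, by linarith, h3.trans ?_, h4.trans ?_⟩
  · exact mul_le_mul_of_nonneg_right (by linarith) h0
  · exact mul_le_mul_of_nonneg_right (by linarith) hc

theorem pf_SCX (hPKT : T_PKT) (hIVZ : T_IVZ) (hSSX : T_SSX) : T_SCX := by
  intro m L β Ψ Ξ ψ χ α δ hβ hΨ hΞ hδ hδ4 hL
  obtain ⟨Cp, hCp, hp⟩ := hPKT m β Ψ Ξ ψ χ hβ hΨ hΞ
  have hD : 1 ≤ max 2 Cp := le_max_of_le_left (by norm_num)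
  obtain ⟨Cs, hCs, hs⟩ := hSSX m L β α (max 2 Cp) hβ hD hL
  set C : ℝ := 8 * Cp + Cs with hCdef
  have hC1 : 1 ≤ C := by linarith
  refine ⟨C, hC1, ?_⟩
  intro κ R r A G G₁ S z₁ hκ hκ3 hR hCR hr1 hr2 hA hG hsupp hEn hG₁ hTF₁
  have hR0 : 0 < R := by linarith
  have hsq : 1 ≤ Real.sqrt R := Real.one_le_sqrt.2 hR
  have hr0 : 0 < r := by linarith
  have hr11 : 1 ≤ r := hsq.trans hr1
  have hrp : r ≤ R / Cp := hr2.trans (div_le_div_of_nonneg_left hR0.le (by linarith) (by linarith))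
  have hrR : r ≤ R := hr2.trans (div_le_self hR0.le hC1)
  have hRd : 0 < R ^ δ := Real.rpow_pos_of_pos hR0 _
  have hneg : R ^ (-δ) = (R ^ δ)⁻¹ := Real.rpow_neg hR0.le _
  have h8 : Cp * R ^ (-δ) ≤ 1 / 8 := by
    rw [hneg, ← div_eq_mul_inv, div_le_iff₀ hRd]
    linarith
  obtain ⟨-, hp2⟩ := hp κ R r δ G S z₁ hκ hκ3 hδ hδ4 hR (by linarith) hG hsupp
  obtain ⟨G', hT, hsup, hTF, hdom⟩ := hp2 hr1 hrp
  classical
  set I : Finset (Fin m → ℤ) := S.image Prod.fst with hI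
  have hTk : ∀ k ∈ I, TC (G' k) := fun k _ => hT k
  have hsub : Sub β (max 2 Cp) R G G' I := by
    refine ⟨hTk, ?_, ?_⟩
    · intro k _ ζ hζ
      obtain ⟨h1, h2⟩ := hsup k ζ hζ
      obtain ⟨h3, h4, -, -⟩ := h1
      have hs0 := sR_pos hR
      refine ⟨by linarith, by linarith, h2.trans ?_⟩
      exact mul_le_mul_of_nonneg_right (le_max_left _ _) hs0.le
    · intro k _ z
      refine (hdom k z).trans ?_
      exact mul_le_mul_of_nonneg_right (le_max_right _ _) (norm_nonneg _)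
  have heq : (fun ζ => ∑ k ∈ I, G' k ζ) = G₁ := by
    refine tf_inj hIVZ (tc_sum hTk) hG₁ fun z => ?_
    rw [TF_sum hTk, hTF₁ z]
    have h1 : ∀ k ∈ I, TF (G' k) z = (χ (r⁻¹ • (z - z₁)) : ℂ) *
        ∑ W ∈ S.filter (fun W => W.1 = k), Fp β ψ R δ G W z := fun k _ => hTF k z
    rw [Finset.sum_congr rfl h1, ← Finset.mul_sum]
    congr 1
    rw [Finset.sum_fiberwise_of_maps_to (fun W hW => Finset.mem_image_of_mem _ hW)]
  have hfin := hs R r A G G' I hr11 hrR hA hG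
    (fun ζ hζ => rg_mono (by linarith) (by linarith) (by positivity) (hsupp ζ hζ)) hEn hsub
  rw [heq] at hfin
  have hQ : 0 ≤ (R / r) ^ ((m : ℝ) / 2) := Real.rpow_nonneg (by positivity) _
  refine enx_mono hr0 (by positivity) ?_ hfin
  exact mul_le_mul_of_nonneg_right (mul_le_mul_of_nonneg_right (by linarith) hA.le) hQ

end Pool.Agent.H33.FD.SCX
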